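import Pool.Agent.H65.CM4.Targets1

/-!
Row A_BAL of the board cm4_modules (`MP_52e316_nt`): balancing with units.
-/

set_option autoImplicit false

open MeasureTheory Set Filter NumberField NumberField.InfinitePlace Pool.Agent.H65.CM4
open scoped Real

namespace Pool.Agent.H33.CM4

variable (k : Type) [Field k] [NumberField k] [IsTotallyReal k]

open NumberField.Units NumberField.Units.dirichletUnitTheorem in
/-- the unit lattice is cocompact -/
theorem exists_unit_near (k : Type) [Field k] [NumberField k] :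
    ∃ B : ℝ, 0 ≤ B ∧ ∀ z : {w : InfinitePlace k // w ≠ w₀} → ℝ, ∃ u : (𝓞 k)ˣ,
      ∀ w, |z w - logEmbedding k (Additive.ofMul u) w| ≤ B := by
  classical
  let b := (basisUnitLattice k).ofZLatticeBasis ℝ (unitLattice k)
  refine ⟨∑ i, ‖b i‖, Finset.sum_nonneg fun i _ => norm_nonneg _, fun z => ?_⟩
  have h1 : ((ZSpan.floor b z : Submodule.span ℤ (Set.range b)) :
      {w : InfinitePlace k // w ≠ w₀} → ℝ) ∈ unitLattice k := by
    have h2 := (ZSpan.floor b z).2
    have h3 : Submodule.span ℤ (Set.range b) = unitLattice k :=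
      (basisUnitLattice k).ofZLatticeBasis_span ℝ (unitLattice k)
    exact h3.le h2
  obtain ⟨u, -, hu⟩ := h1
  refine ⟨Additive.toMul u, fun w => ?_⟩
  have h4 : ‖ZSpan.fract b z‖ ≤ ∑ i, ‖b i‖ := ZSpan.norm_fract_le b z
  have h5 := (norm_le_pi_norm (ZSpan.fract b z) w).trans h4
  rw [ZSpan.fract_apply, ← hu] at h5
  exact h5

open NumberField.Units NumberField.Units.dirichletUnitTheorem in
/-- (BAL) balancing with units. -/
theorem pf_BAL (hEMB : T_EMB k) : T_BAL k := by
  classical
  obtain ⟨hcard, hdg, -⟩ := hEMB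
  obtain ⟨B, hB, hu⟩ := exists_unit_near k
  set n : ℝ := (dg k : ℝ) with hn
  have hn0 : 0 < n := by rw [hn]; exact_mod_cast hdg
  have hn1 : 1 ≤ n := by rw [hn]; exact_mod_cast hdg
  refine ⟨Real.exp (n * B), Real.one_le_exp (by positivity), fun g hg => ?_⟩
  set av : ℝ := (∑ v : Pl k, Real.log (g v)) / n with hav
  have hP : (∏ v' : Pl k, g v') ^ (1 / (dg k : ℝ)) = Real.exp av := by
    have h0 : 0 < ∏ v' : Pl k, g v' := Finset.prod_pos fun v _ => hg v
    rw [Real.rpow_def_of_pos h0, Real.log_prod (fun v _ => (hg v).ne')]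
    rw [hav, hn]
    congr 1
    ring
  obtain ⟨u, hu⟩ := hu (fun w => av - Real.log (g w.1))
  refine ⟨u, ?_⟩
  have habs : ∀ (v : Pl k) (x : k), |rv v x| = v x := fun v x =>
    norm_embedding_of_isReal (IsTotallyReal.isReal v) x
  have hmult : ∀ v : Pl k, mult v = 1 := fun v => by
    unfold mult
    rw [if_pos (IsTotallyReal.isReal v)]
  have hpos : ∀ v : Pl k, 0 < v ((u : 𝓞 k) : k) := fun v => by
    rw [InfinitePlace.pos_iff]
    intro h
    exact u.ne_zero (RingOfIntegers.coe_injective
      (h.trans (map_zero (algebraMap (𝓞 k) k)).symm))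
  have hlog : ∀ w : {w : InfinitePlace k // w ≠ w₀},
      logEmbedding k (Additive.ofMul u) w = Real.log (w.1 ((u : 𝓞 k) : k)) := fun w => by
    rw [logEmbedding_component, hmult]
    simp
  have hw : ∀ w : {w : InfinitePlace k // w ≠ w₀},
      |Real.log (w.1 ((u : 𝓞 k) : k)) + Real.log (g w.1) - av| ≤ B := fun w => by
    have h := hu w
    rw [hlog] at h
    rw [abs_le] at h ⊢
    constructor <;> linarith [h.1, h.2]
  have hsum0 : ∑ w : {w : InfinitePlace k // w ≠ w₀}, Real.log (w.1 ((u : 𝓞 k) : k)) =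
      - Real.log ((w₀ : InfinitePlace k) ((u : 𝓞 k) : k)) := by
    have h := sum_logEmbedding_component (K := k) u
    rw [hmult] at h
    simp only [hlog] at h
    rw [h]
    simp
  have hsplit : ∀ f : InfinitePlace k → ℝ,
      ∑ v, f v = f w₀ + ∑ w : {w : InfinitePlace k // w ≠ w₀}, f w.1 := by
    intro f
    rw [← Finset.add_sum_erase Finset.univ f (Finset.mem_univ w₀)]
    congr 1
    refine (Finset.sum_subtype (Finset.univ.erase w₀) (fun x => ?_) f)
    simp
  have hall : ∑ v : InfinitePlace k, (Real.log (v ((u : 𝓞 k) : k)) + Real.log (g v) - av) = 0 := by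
    rw [Finset.sum_sub_distrib, Finset.sum_add_distrib, hsplit (fun v => Real.log (v _)), hsum0]
    rw [Finset.sum_const, Finset.card_univ, hcard, nsmul_eq_mul, hav, ← hn]
    field_simp
    ring
  have hw0 : |Real.log ((w₀ : InfinitePlace k) ((u : 𝓞 k) : k)) +
      Real.log (g (w₀ : InfinitePlace k)) - av| ≤ (n - 1) * B := by
    rw [hsplit] at hall
    have h1 : Real.log ((w₀ : InfinitePlace k) ((u : 𝓞 k) : k)) +
      Real.log (g (w₀ : InfinitePlace k)) - av = - ∑ w : {w : InfinitePlace k // w ≠ w₀},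
        (Real.log (w.1 ((u : 𝓞 k) : k)) + Real.log (g w.1) - av) := by linarith
    rw [h1, abs_neg]
    refine (Finset.abs_sum_le_sum_abs _ _).trans ?_
    refine (Finset.sum_le_sum fun w _ => hw w).trans ?_
    rw [Finset.sum_const, Finset.card_univ, nsmul_eq_mul]
    have h2 : (Fintype.card {w : InfinitePlace k // w ≠ w₀} : ℝ) = n - 1 := by
      rw [Fintype.card_subtype_compl, Fintype.card_subtype_eq]
      have h3 : Fintype.card (InfinitePlace k) = dg k := hcard
      rw [h3, Nat.cast_sub hdg, hn]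
      simp
    rw [h2]
  have hv : ∀ v : Pl k, |Real.log (v ((u : 𝓞 k) : k)) + Real.log (g v) - av| ≤ n * B := by
    intro v
    by_cases h : v = w₀
    · subst h
      exact hw0.trans (mul_le_mul_of_nonneg_right (by linarith) hB)
    · exact (hw ⟨v, h⟩).trans (le_mul_of_one_le_left hB hn1)
  intro v
  rw [hP, habs]
  have h1 := abs_le.1 (hv v)
  have h2 : v ((u : 𝓞 k) : k) * g v =
      Real.exp (Real.log (v ((u : 𝓞 k) : k)) + Real.log (g v)) := by
    rw [Real.exp_add, Real.exp_log (hpos v), Real.exp_log (hg v)]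
  rw [h2, ← Real.exp_sub, ← Real.exp_add, Real.exp_le_exp, Real.exp_le_exp]
  constructor <;> linarith [h1.1, h1.2]

end Pool.Agent.H33.CM4
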