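import Pool.Agent.H89.CM4.Targets2

/-!
Row B_CAS of the board cm4_modules (`MP_52e316_nt`): Cauchy's formula on a polydisc, for a sum of
squares.
-/

set_option autoImplicit false

open MeasureTheory Set Filter NumberField NumberField.InfinitePlace Pool.Agent.H65.CM4
  Pool.Agent.H89.CM4
open scoped Real

namespace Pool.Agent.H33.CM4

/-- (CAS) Cauchy's formula on a polydisc, for a sum of squares. -/
theorem pf_CAS (hCA1 : T_CA1) : T_CAS := by
  intro ι p _ _ S f a R X z hR hd hz hX
  have claim : ∀ (T : Finset p) (w0 : p → ℂ), (∀ v, ‖w0 v - a v‖ = 2 * R) →
      ∑ i ∈ S, ‖f i (fun v => if v ∈ T then z i v else w0 v)‖ ^ 2 ≤ 4 ^ T.card * X := by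
    intro T
    induction T using Finset.induction_on with
    | empty =>
      intro w0 hw0
      simpa using hX w0 hw0
    | insert v0 T hv0 ih =>
      intro w0 hw0
      set base : ι → p → ℂ := fun i v => if v ∈ T then z i v else w0 v with hbase
      have hb : ∀ i ∈ S, ∀ v, ‖base i v - a v‖ ≤ 2 * R := by
        intro i hi v
        simp only [hbase]
        by_cases hv : v ∈ T
        · rw [if_pos hv]
          exact (hz i hi v).trans (by linarith)
        · rw [if_neg hv]
          exact (hw0 v).le
      have h := hCA1 ι S (fun i w => f i (Function.update (base i) v0 w)) (a v0) R
        (4 ^ T.card * X) (fun i => z i v0) hR ?_ (fun i hi => hz i hi v0) ?_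
      · rw [Finset.card_insert_of_notMem hv0, pow_succ]
        have e : ∀ i, Function.update (base i) v0 (z i v0) =
            fun v => if v ∈ insert v0 T then z i v else w0 v := by
          intro i
          funext v
          by_cases hv : v = v0
          · subst hv
            simp
          · rw [Function.update_of_ne hv]
            simp only [hbase, Finset.mem_insert, hv, false_or]
        simp only [e] at h
        linarith
      · intro i hi w hw
        have h1 := hd i hi (Function.update (base i) v0 w) ?_ v0
        · simpa [Function.update_idem] using h1
        · intro v
          by_cases hv : v = v0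
          · subst hv
            simpa using hw
          · rw [Function.update_of_ne hv]
            exact hb i hi v
      · intro w hw
        have h1 := ih (Function.update w0 v0 w) ?_
        · have e : ∀ i, (fun v => if v ∈ T then z i v else Function.update w0 v0 w v) =
              Function.update (base i) v0 w := by
            intro i
            funext v
            by_cases hv : v = v0
            · subst hv
              simp [hv0]
            · rw [Function.update_of_ne hv, Function.update_of_ne hv]
          simp only [e] at h1
          exact h1
        · intro v
          by_cases hv : v = v0
          · subst hv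
            simpa using hw
          · rw [Function.update_of_ne hv]
            exact hw0 v
  have h := claim Finset.univ (fun v => a v + 2 * R) (fun v => by
    simp [abs_of_pos hR])
  simpa using h

end Pool.Agent.H33.CM4
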