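import Pool.Agent.H65.CM4.Targets1

/-!
Row A_PTW of the board cm4_modules (`MP_52e316_nt`): the pointwise bound.
-/

set_option autoImplicit false

open MeasureTheory Set Filter NumberField NumberField.InfinitePlace Pool.Agent.H65.CM4
open scoped Real

namespace Pool.Agent.H33.CM4

variable (k : Type) [Field k] [NumberField k] [IsTotallyReal k]

/-- (PTW) the pointwise bound. -/
theorem pf_PTW (hEMB : T_EMB k) (hRAB : T_RAB k) (hRMW : T_RMW k) (hGCD : T_GCD k)
    (hIDC : T_IDC k) : T_PTW k := by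
  intro R ε hε
  obtain ⟨C, hC, h⟩ := hGCD (ε / 2) (by positivity)
  obtain ⟨hId, hSq, -⟩ := hIDC
  obtain ⟨-, -, -, -, -, -, hN0, -, -, hN1, hnm, -⟩ := hEMB
  refine ⟨C ^ 2, by positivity, fun b A w Q hb hA hw hQ hv => ?_⟩
  have hA0 : 0 < A := by linarith
  have ha' : 1 ≤ Nr (Q.1 : k) := hN1 _ hQ
  have hb' : 1 ≤ Nr (val Q w : k) := hN1 _ hv
  have h1 := h A Q.1 hA hQ
  have h2 := h A (val Q w) hA hv
  have hnn : ∀ I : Ideal (𝓞 k), 0 ≤ nm I := fun I => by unfold nm; positivity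
  have hsub : Sq (k := k) b A ⊆ Id k A := by
    intro I hI
    rw [hSq] at hI
    rw [hId]
    exact ⟨hI.1, hI.2.2.2⟩
  have hle : Tw b A w Q ≤
      (∑ f ∈ Id k A, 3 ^ (pf f).card * nm (f ⊔ Ideal.span {Q.1}) / nm f) *
      (∑ m ∈ Id k A, 3 ^ (pf m).card * nm (m ⊔ Ideal.span {val Q w}) / nm m) := by
    have hmono : ∀ a : 𝓞 k, ∑ f ∈ Sq b A, 3 ^ (pf f).card * nm (f ⊔ Ideal.span {a}) / nm f ≤
        ∑ f ∈ Id k A, 3 ^ (pf f).card * nm (f ⊔ Ideal.span {a}) / nm f := by
      intro a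
      refine Finset.sum_le_sum_of_subset_of_nonneg hsub fun f _ _ => ?_
      exact div_nonneg (mul_nonneg (by positivity) (hnn _)) (hnn _)
    refine le_trans ?_ (mul_le_mul (hmono Q.1) (hmono (val Q w))
      (Finset.sum_nonneg fun f _ => div_nonneg (mul_nonneg (by positivity) (hnn _)) (hnn _))
      (Finset.sum_nonneg fun f _ => div_nonneg (mul_nonneg (by positivity) (hnn _)) (hnn _)))
    unfold Tw
    rw [Finset.sum_mul_sum]
    refine Finset.sum_le_sum fun f hf => Finset.sum_le_sum fun m hm => ?_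
    rw [hSq] at hf hm
    have hf1 : (0 : ℝ) < nm f := lt_of_lt_of_le one_pos (hnm f hf.1).1
    have hm1 : (0 : ℝ) < nm m := lt_of_lt_of_le one_pos (hnm m hm.1).1
    have h3 := hRAB f Q hf.1 hf.2.1
    have h4 := (hRMW R b m w Q hb hm.1 hm.2.1 hm.2.2.1 hw).2
    have h5 : (1 : ℝ) ≤ 3 ^ (pf m).card := one_le_pow₀ (by norm_num)
    calc (1 / (nm f ^ 2 * nm m)) * (∑ L ∈ Ls f, |Rn f L Q|) * |Rn m (Lw m w) Q|
        ≤ (1 / (nm f ^ 2 * nm m)) * (3 ^ (pf f).card * nm f * nm (f ⊔ Ideal.span {Q.1})) *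
          (3 ^ (pf m).card * nm (m ⊔ Ideal.span {val Q w})) := by
          refine mul_le_mul (mul_le_mul_of_nonneg_left h3 (by positivity)) ?_ (abs_nonneg _)
            (mul_nonneg (by positivity) (mul_nonneg (by positivity) (hnn _)))
          refine h4.trans ?_
          exact le_mul_of_one_le_left (hnn _) h5
      _ = _ := by
          field_simp
  have hn1 : 0 ≤ ∑ m ∈ Id k A, 3 ^ (pf m).card * nm (m ⊔ Ideal.span {val Q w}) / nm m :=
    Finset.sum_nonneg fun m _ => div_nonneg (mul_nonneg (by positivity) (hnn _)) (hnn _)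
  calc Tw b A w Q ≤ _ := hle
    _ ≤ (C * (A * Nr (Q.1 : k)) ^ (ε / 2)) * (C * (A * Nr (val Q w : k)) ^ (ε / 2)) :=
        mul_le_mul h1 h2 hn1 (by positivity)
    _ = C ^ 2 * ((A * Nr (Q.1 : k)) * (A * Nr (val Q w : k))) ^ (ε / 2) := by
        rw [Real.mul_rpow (x := A * Nr (Q.1 : k)) (y := A * Nr (val Q w : k)) (by positivity)
          (by positivity)]
        ring
    _ ≤ C ^ 2 * ((A * Nr (Q.1 : k) * Nr (val Q w : k)) ^ 2) ^ (ε / 2) := by
        refine mul_le_mul_of_nonneg_left (Real.rpow_le_rpow (by positivity) ?_ (by positivity))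
          (by positivity)
        have h6 : 1 ≤ Nr (Q.1 : k) * Nr (val Q w : k) := one_le_mul_of_one_le_of_one_le ha' hb'
        have h7 : 0 ≤ A ^ 2 * (Nr (Q.1 : k) * Nr (val Q w : k)) := by positivity
        nlinarith
    _ = C ^ 2 * (A * Nr (Q.1 : k) * Nr (val Q w : k)) ^ ε := by
        congr 1
        rw [← Real.rpow_natCast (A * Nr (Q.1 : k) * Nr (val Q w : k)) 2,
          ← Real.rpow_mul (by positivity)]
        congr 1
        push_cast
        ring

end Pool.Agent.H33.CM4
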