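import Pool.Agent.H65.CM4.Targets1b

/-!
Row A_RPC of the board cm4_modules (`MP_52e316_nt`): the number of the fractions with a given
denominator.
-/

set_option autoImplicit false

open MeasureTheory Set Filter NumberField NumberField.InfinitePlace Pool.Agent.H65.CM4
open scoped Real

namespace Pool.Agent.H33.CM4

variable (k : Type) [Field k] [NumberField k] [IsTotallyReal k]

/-- (RPC) the number of the fractions with a given denominator. -/
theorem pf_RPC (_hEMB : T_EMB k) : T_RPC k := by
  intro R J hJ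
  -- the complementary ideal
  have hN0 : Ideal.absNorm J ≠ 0 := by
    intro h
    exact hJ (Ideal.absNorm_eq_zero_iff.1 h)
  have hNm : ((Ideal.absNorm J : ℕ) : 𝓞 k) ∈ J := Ideal.absNorm_mem J
  set N : 𝓞 k := ((Ideal.absNorm J : ℕ) : 𝓞 k) with hN
  have hNz : N ≠ 0 := by
    rw [hN]
    exact_mod_cast hN0
  have hNk : (N : k) ≠ 0 := by
    intro h
    exact hNz (RingOfIntegers.coe_injective (h.trans (map_zero (algebraMap (𝓞 k) k)).symm))
  obtain ⟨J', hJ'⟩ : J ∣ Ideal.span {N} := by
    rw [Ideal.dvd_iff_le, Ideal.span_singleton_le_iff_mem]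
    exact hNm
  have hJ'0 : J' ≠ ⊥ := by
    rintro rfl
    rw [Ideal.mul_bot, Ideal.span_singleton_eq_bot] at hJ'
    exact hNz hJ'
  -- the inverse ideal
  have key : ∀ a : k, J ≤ den a ↔ ∃ x ∈ J', (x : k) = (N : k) * a := by
    intro a
    constructor
    · intro h
      obtain ⟨x, hx⟩ : Int' ((N : k) * a) := h hNm
      refine ⟨x, ?_, hx⟩
      have h1 : J * J' ∣ J * Ideal.span {x} := by
        rw [← hJ', Ideal.dvd_iff_le, Ideal.mul_le]
        intro j hj y hy
        obtain ⟨c, rfl⟩ := Ideal.mem_span_singleton'.1 hy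
        obtain ⟨z, hz⟩ : Int' ((j : k) * a) := h hj
        rw [Ideal.mem_span_singleton']
        refine ⟨c * z, ?_⟩
        apply RingOfIntegers.coe_injective
        change ((c : k) * (z : k)) * (N : k) = (j : k) * ((c : k) * (x : k))
        rw [hz, hx]
        ring
      have h2 : J' ∣ Ideal.span {x} := (mul_dvd_mul_iff_left hJ).1 h1
      rw [Ideal.dvd_iff_le, Ideal.span_singleton_le_iff_mem] at h2
      exact h2
    · rintro ⟨x, hx, hxa⟩ j hj
      have h1 : j * x ∈ Ideal.span {N} := by
        rw [hJ']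
        exact Ideal.mul_mem_mul hj hx
      obtain ⟨c, hc⟩ := Ideal.mem_span_singleton'.1 h1
      refine ⟨c, ?_⟩
      have h2 : (c : k) * (N : k) = (j : k) * (x : k) := by
        have := congrArg (fun z : 𝓞 k => (z : k)) hc
        exact this
      rw [hxa] at h2
      have h3 : (N : k) * (c : k) = (N : k) * ((j : k) * a) := by rw [mul_comm, h2]; ring
      exact mul_left_cancel₀ hNk h3
  -- the groups
  set H : AddSubgroup (𝓞 k) := (Ideal.span {N} : Ideal (𝓞 k)).toAddSubgroup with hH
  set K : AddSubgroup (𝓞 k) := J'.toAddSubgroup with hK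
  have hHK : H ≤ K := by
    intro x hx
    have hx' : x ∈ Ideal.span {N} := hx
    rw [hJ'] at hx'
    exact Ideal.mul_le_right hx'
  have hcard : H.relIndex K = Ideal.absNorm J := by
    have h1 := AddSubgroup.relIndex_mul_index hHK
    have h2 : K.index = Ideal.absNorm J' := rfl
    have h3 : H.index = Ideal.absNorm (Ideal.span {N} : Ideal (𝓞 k)) := rfl
    rw [h2, h3, hJ', map_mul] at h1
    have h4 : Ideal.absNorm J' ≠ 0 := fun h => hJ'0 (Ideal.absNorm_eq_zero_iff.1 h)
    exact Nat.eq_of_mul_eq_mul_right (Nat.pos_of_ne_zero h4) h1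
  let S : Set k := {a : k | a ∈ R.U ∧ J ≤ den a}
  have hx : ∀ a : S, ∃ x ∈ J', (x : k) = (N : k) * (a : k) := fun a => (key a).1 a.2.2
  choose g hg1 hg2 using hx
  let f : S → K ⧸ H.addSubgroupOf K := fun a =>
    QuotientAddGroup.mk (⟨g a, hg1 a⟩ : K)
  have hf : Function.Bijective f := by
    constructor
    · intro a a' haa
      have h1 : -(⟨g a, hg1 a⟩ : K) + (⟨g a', hg1 a'⟩ : K) ∈ H.addSubgroupOf K :=
        QuotientAddGroup.eq.1 haa
      have h2 : -(g a) + g a' ∈ Ideal.span {N} := h1
      obtain ⟨c, hc⟩ := Ideal.mem_span_singleton'.1 h2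
      have h3 : (c : k) * (N : k) = -(g a : k) + (g a' : k) := by
        have := congrArg (fun z : 𝓞 k => (z : k)) hc
        exact this
      rw [hg2, hg2] at h3
      have h4 : (a' : k) - (a : k) = (c : k) := by
        have h5 : (N : k) * ((a' : k) - (a : k)) = (N : k) * (c : k) := by
          rw [mul_comm (N : k) (c : k), h3]; ring
        exact mul_left_cancel₀ hNk h5
      obtain ⟨b, hb, hb2⟩ := R.ru (a' : k)
      have e1 := hb2 (a' : k) ⟨a'.2.1, ⟨0, by simp⟩⟩
      have e2 := hb2 (a : k) ⟨a.2.1, ⟨c, h4.symm⟩⟩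
      exact Subtype.ext (e2.trans e1.symm)
    · intro q
      obtain ⟨⟨x, hx⟩, rfl⟩ := QuotientAddGroup.mk_surjective q
      have hx' : x ∈ J' := hx
      obtain ⟨a, ⟨haU, y, hy⟩, -⟩ := R.ru ((x : k) / (N : k))
      have hxy : ((x - N * y : 𝓞 k) : k) = (N : k) * a := by
        change (x : k) - (N : k) * (y : k) = (N : k) * a
        rw [hy]
        field_simp
        ring
      have hmem : x - N * y ∈ J' := by
        refine J'.sub_mem hx' ?_
        have h1 : N * y ∈ Ideal.span {N} := Ideal.mul_mem_right _ _ (Ideal.mem_span_singleton_self N)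
        rw [hJ'] at h1
        exact Ideal.mul_le_right h1
      have haS : a ∈ S := ⟨haU, (key a).2 ⟨_, hmem, hxy⟩⟩
      refine ⟨⟨a, haS⟩, ?_⟩
      apply QuotientAddGroup.eq.2
      have e : g ⟨a, haS⟩ = x - N * y := by
        apply RingOfIntegers.coe_injective
        change (g ⟨a, haS⟩ : k) = ((x - N * y : 𝓞 k) : k)
        rw [hg2, hxy]
      change -(g ⟨a, haS⟩) + x ∈ Ideal.span {N}
      rw [e, Ideal.mem_span_singleton']
      exact ⟨y, by ring⟩
  have hS : Nat.card S = Ideal.absNorm J := (Nat.card_congr (Equiv.ofBijective f hf)).trans hcard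
  have h1 : S.ncard = Ideal.absNorm J := (Nat.card_coe_set_eq S).symm.trans hS
  exact ⟨Set.finite_of_ncard_ne_zero (by rw [h1]; exact hN0), h1⟩

end Pool.Agent.H33.CM4
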